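import Pool.Agent.Run7.h827.UCenter

/-!
# The center of the positive part of `U_q(affine sl_2)`

`UPlus K q` is the unital associative `K`-algebra with two generators `A`, `A^*` and the two cubic
q-Serre relations.  For every field `K` and every nonzero `q` that is not a root of unity its
center is `K 1`.
-/

namespace Pool.Agent.Results.MP_cafee0_al.CenterTrivial

universe u

open Run7.h827

/-- The quantum integer `[3]_q = q^2 + 1 + q^{-2}`. -/
def qThree {K : Type u} [Field K] (q : K) : K := q ^ 2 + 1 + (q ^ 2)⁻¹

/-- The two cubic q-Serre relations between the generators `A = ι 0` and `A^* = ι 1` of the free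
algebra on two generators. -/
inductive SerreRel (K : Type u) [Field K] (q : K) :
    FreeAlgebra K (Fin 2) → FreeAlgebra K (Fin 2) → Prop
  | rel1 : SerreRel K q
      (FreeAlgebra.ι K 0 ^ 3 * FreeAlgebra.ι K 1
        - qThree q • (FreeAlgebra.ι K 0 ^ 2 * FreeAlgebra.ι K 1 * FreeAlgebra.ι K 0)
        + qThree q • (FreeAlgebra.ι K 0 * FreeAlgebra.ι K 1 * FreeAlgebra.ι K 0 ^ 2)
        - FreeAlgebra.ι K 1 * FreeAlgebra.ι K 0 ^ 3) 0
  | rel2 : SerreRel K q
      (FreeAlgebra.ι K 1 ^ 3 * FreeAlgebra.ι K 0
        - qThree q • (FreeAlgebra.ι K 1 ^ 2 * FreeAlgebra.ι K 0 * FreeAlgebra.ι K 1)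
        + qThree q • (FreeAlgebra.ι K 1 * FreeAlgebra.ι K 0 * FreeAlgebra.ι K 1 ^ 2)
        - FreeAlgebra.ι K 0 * FreeAlgebra.ι K 1 ^ 3) 0

/-- The positive part `U^+` of `U_q(affine sl_2)`: generators `A`, `A^*`, q-Serre relations. -/
abbrev UPlus (K : Type u) [Field K] (q : K) : Type u := RingQuot (SerreRel K q)

section aux

variable {K : Type u} [Field K] {q : K}

/-- Names of the two generators. -/
private def idx (i : Bool) : Fin 2 := if i then 1 else 0

private def idx' (i : Fin 2) : Bool := if i = 0 then false else true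

private theorem three_eq (q : K) : three K (q ^ 2) = qThree q := rfl

/-- from `U` to `UPlus` -/
private noncomputable def toUPlus (q : K) : U.UT (q ^ 2) →ₐ[K] UPlus K q :=
  U.lift (fun i => RingQuot.mkAlgHom K (SerreRel K q) (FreeAlgebra.ι K (idx i))) (by
    intro i
    cases i
    · have h := RingQuot.mkAlgHom_rel K (SerreRel.rel1 (K := K) (q := q))
      simpa [serreExpr, idx, three_eq] using h
    · have h := RingQuot.mkAlgHom_rel K (SerreRel.rel2 (K := K) (q := q))
      simpa [serreExpr, idx, three_eq] using h)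

/-- from `UPlus` to `U` -/
private noncomputable def ofUPlus (q : K) : UPlus K q →ₐ[K] U.UT (q ^ 2) :=
  RingQuot.liftAlgHom K ⟨FreeAlgebra.lift K (fun i => U.X (idx' i)), by
    intro x y hxy
    cases hxy with
    | rel1 =>
      have := U.serre (c := three K (q ^ 2)) false
      simpa [serreExpr, idx', ← three_eq] using this
    | rel2 =>
      have := U.serre (c := three K (q ^ 2)) true
      simpa [serreExpr, idx', ← three_eq] using this⟩

private theorem toUPlus_ofUPlus (x : UPlus K q) : toUPlus q (ofUPlus q x) = x := by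
  have : (toUPlus q).comp (ofUPlus q) = AlgHom.id K (UPlus K q) := by
    apply RingQuot.ringQuot_ext'
    apply FreeAlgebra.hom_ext
    funext i
    fin_cases i <;> simp [toUPlus, ofUPlus, idx, idx']
  exact congrArg (fun f => f x) this

private theorem ofUPlus_toUPlus (x : U.UT (q ^ 2)) : ofUPlus q (toUPlus q x) = x := by
  have : ((ofUPlus q).comp (toUPlus q)).toLinearMap = LinearMap.id := by
    apply U.linearMap_ext
    · simp
    · intro i v h
      simp only [AlgHom.toLinearMap_apply, AlgHom.comp_apply, LinearMap.id_apply, map_mul] at h ⊢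
      rw [h]
      congr 1
      cases i <;> simp [toUPlus, ofUPlus, idx, idx']
  exact congrArg (fun f => f x) this

end aux

/-- For every field `K` and every nonzero `q ∈ K` that is not a root of unity, the center of
`U^+` is `K 1`: an element `z` of `U^+` commutes with every element of `U^+` if and only if
`z = r 1` for a (unique) scalar `r ∈ K`. -/
theorem result (K : Type u) [Field K] (q : K) (hq0 : q ≠ 0)
    (hq : ∀ n : ℕ, 0 < n → q ^ n ≠ 1) (z : UPlus K q) :
    (∀ x : UPlus K q, z * x = x * z) ↔ ∃! r : K, z = algebraMap K (UPlus K q) r := by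
  have ht0 : q ^ 2 ≠ 0 := pow_ne_zero 2 hq0
  have hn : ∀ n : ℕ, 0 < n → (q ^ 2) ^ n ≠ 1 := by
    intro n hn
    rw [← pow_mul]
    exact hq _ (by omega)
  constructor
  · intro hz
    have h1 : ∀ i, U.X i * ofUPlus q z = ofUPlus q z * U.X i := by
      intro i
      have h2 := congrArg (ofUPlus q) (hz (toUPlus q (U.X i))).symm
      rwa [map_mul, map_mul, ofUPlus_toUPlus] at h2
    have h3 := congrArg (toUPlus q) (U.central_eq ht0 hn (ofUPlus q z) h1)
    rw [toUPlus_ofUPlus, AlgHom.commutes] at h3
    have hinj : Function.Injective (algebraMap K (UPlus K q)) := by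
      have hl : Function.LeftInverse (fun x => U.eps (ofUPlus q x)) (algebraMap K (UPlus K q)) :=
        fun r => by simp
      exact hl.injective
    exact ⟨_, h3, fun r hr => hinj (hr.symm.trans h3)⟩
  · rintro ⟨r, hr, _⟩ x
    rw [hr]
    exact Algebra.commutes r x

end Pool.Agent.Results.MP_cafee0_al.CenterTrivial
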